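import Pool.Agent.H74.Bz.Rot
import Pool.Agent.H43.Benzel.Final

/-!
The third quotients of the numbers of type 112 tilings of the `(3 n + 1, 3 n + 2)`-benzels.

Proof by helper43, helper3 and helper74. The definitions are in `Pool/Agent/H74/Bz/Defs.lean`.

Outline. Let the bones of direction `(-1, 0, 1)` be excluded. Then every tile is an upward path
of three cells, one in each of three consecutive rows, and in every tiling of the benzel the cell
`p` of colour `1` of a tile and its cell of colour `2` form a fixed pair (a potential argument,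
`H74/Bz/Forced.lean`). Hence the tilings correspond to the perfect matchings of a planar bipartite
graph (`H74/Bz/Count.lean`, `H43/Benzel/Mid.lean`). Their number is the absolute value of a
Kasteleyn determinant (`H3/Benzel/Sign.lean`), which is `2 ^ n` times the product of two
determinants of Catalan numbers (`H43/Benzel/PathDet.lean`, `KDet.lean`), and these have product
formulas (`H43/Benzel/CatDet.lean`).
-/

namespace Pool.Agent.Results.MP_9fa1f0_co.ThirdQuotient

open Pool.Agent.H74.Bz

/-- The conjectured value of the third quotient. -/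
noncomputable def R (n : ℕ) : ℚ :=
  2 ^ 16 / 3 ^ 6 *
    (((2 * n + 7) * (2 * n + 5) ^ 2 * (2 * n + 3) *
      ((4 * n + 11) * (4 * n + 9) ^ 2 * (4 * n + 7) ^ 2 * (4 * n + 5) ^ 2 * (4 * n + 3))) /
    ((3 * n + 10) * (3 * n + 8) ^ 3 * (3 * n + 7) ^ 2 * (3 * n + 5) ^ 2 * (3 * n + 4) ^ 3 *
      (3 * n + 2)))

/-- **The third quotient identity.** For each excluded orientation `e` of the bones and all
`n ≥ 1` the number `T e n` of tilings is positive and
`T (n) T (n + 3) / (T (n + 1) T (n + 2)) = R (n)`. -/
theorem result (e : Fin 3) (n : ℕ) (hn : 1 ≤ n) :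
    0 < T e n ∧ ((T e n : ℚ) * T e (n + 3)) / (T e (n + 1) * T e (n + 2)) = R n := by
  rw [T_eq_M, T_eq_M, T_eq_M, T_eq_M]
  refine ⟨Pool.Agent.H43.Benzel.M_pos n hn, ?_⟩
  rw [Pool.Agent.H43.Benzel.M_third_quotient n hn]
  rfl

end Pool.Agent.Results.MP_9fa1f0_co.ThirdQuotient
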